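import Pool.Agent.Work.MP_db9399_sx.Pre

/-!
# MP_db9399, PHASE 2 of exception (iii), block TLA: the pair tests of the labels
-/

set_option autoImplicit false

namespace Pool.Agent.Work.MP_db9399_sx.helper76

open Finset Classical
open Pool.Agent.Work.MP_db9399_all (nb)
open Pool.Agent.Work.MP_db9399_dn (IsMat Tot)
open Pool.Agent.Work.MP_db9399_bg (den cl HPre)
open Pool.Agent.Work.MP_db9399_lh (Lh ce su sp pt)
open Pool.Agent.Work.MP_db9399_ot.helper1 (Kp Lb kt)
open Pool.Agent.Work.MP_db9399_sl (InS Same Gout Gss Gin Gex Out Vert Spt Bip Nsc)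
open Pool.Agent.Work.MP_db9399_sv (Cor Mis slo ms FE GsL GxL bt slL Bas Lab Big Sma Sit)
open Pool.Agent.Work.MP_db9399_sw (shs sms wt wl od ac avl SHH Gxh Grh Lgt mM avgL TQ LabD ColD
  Exs fiR)
open Pool.Agent.Work.MP_db9399_vt (fb outer)
open _root_.MP_db9399_co

universe u

/-! ## Averages -/

section avg
variable {V : Type u} [Fintype V] {T : Type} [Fintype T]

theorem avg2 {v y : V} (hvy : v ≠ y) (g : T → T → ℝ) (q : ℝ)
    (h : ∀ a, ∑ t, g a t ≤ q * Fintype.card T) :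
    ∑ f : V → T, g (f v) (f y) ≤ q * Fintype.card (V → T) := by
  obtain ⟨F, hF⟩ : ∃ F : T × ({j // j ≠ y} → T) → ℝ, F = fun p => g (p.2 ⟨v, hvy⟩) p.1 :=
    ⟨_, rfl⟩
  have e1 : ∑ f : V → T, g (f v) (f y) = ∑ f : V → T, F (Equiv.funSplitAt y T f) := by
    refine Finset.sum_congr rfl fun f _ => ?_
    rw [hF]
    rfl
  rw [e1, Equiv.sum_comp (Equiv.funSplitAt y T) F, Fintype.sum_prod_type_right]
  have e2 : Fintype.card (V → T) = Fintype.card T * Fintype.card ({j // j ≠ y} → T) := by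
    rw [Fintype.card_congr (Equiv.funSplitAt y T), Fintype.card_prod]
  have e3 : ∀ r : {j // j ≠ y} → T, ∑ t, F (t, r) ≤ q * Fintype.card T := by
    intro r
    rw [hF]
    exact h (r ⟨v, hvy⟩)
  refine (Finset.sum_le_sum fun r _ => e3 r).trans ?_
  rw [Finset.sum_const, nsmul_eq_mul, e2, Finset.card_univ]
  push_cast
  apply le_of_eq
  ring

theorem avg1 (y : V) (g : T → ℝ) (q : ℝ) (h : ∑ t, g t ≤ q * Fintype.card T) :
    ∑ f : V → T, g (f y) ≤ q * Fintype.card (V → T) := by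
  obtain ⟨F, hF⟩ : ∃ F : T × ({j // j ≠ y} → T) → ℝ, F = fun p => g p.1 := ⟨_, rfl⟩
  have e1 : ∑ f : V → T, g (f y) = ∑ f : V → T, F (Equiv.funSplitAt y T f) := by
    refine Finset.sum_congr rfl fun f _ => ?_
    rw [hF]
    rfl
  rw [e1, Equiv.sum_comp (Equiv.funSplitAt y T) F, Fintype.sum_prod_type_right]
  have e2 : Fintype.card (V → T) = Fintype.card T * Fintype.card ({j // j ≠ y} → T) := by
    rw [Fintype.card_congr (Equiv.funSplitAt y T), Fintype.card_prod]
  have e3 : ∀ r : {j // j ≠ y} → T, ∑ t, F (t, r) ≤ q * Fintype.card T := by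
    intro r
    rw [hF]
    exact h
  refine (Finset.sum_le_sum fun r _ => e3 r).trans ?_
  rw [Finset.sum_const, nsmul_eq_mul, e2, Finset.card_univ]
  push_cast
  apply le_of_eq
  ring

end avg

/-- change of the decidability instance -/
theorem sum_if {T : Type} [Fintype T] (P Q : T → Prop) [DecidablePred P] [DecidablePred Q]
    (h : ∀ t, P t ↔ Q t) :
    (∑ t, if P t then (1 : ℝ) else 0) = ∑ t, if Q t then (1 : ℝ) else 0 :=
  Finset.sum_congr rfl fun t _ => if_congr (h t) rfl rfl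

theorem mem_nb' {V : Type u} [Fintype V] {G : SimpleGraph V} {v w : V} :
    w ∈ nb G v ↔ G.Adj v w := by
  unfold nb
  simp

/-! ## Pair tests and point tests -/

section tests
variable {V : Type u} [Fintype V] {T : Type}

/-- pair test -/
noncomputable def Pf (A : Finset V) (B : V → Finset V) (R : V → V → T → T → Prop)
    (f : V → T) : ℝ := ∑ v ∈ A, ∑ y ∈ B v, if R v y (f v) (f y) then 1 else 0

/-- number of pairs at the vertex -/
noncomputable def Pc (A : Finset V) (B : V → Finset V) (w : V) : ℝ :=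
  (if w ∈ A then ((B w).card : ℝ) else 0) + ((A.filter (fun v => w ∈ B v)).card : ℝ)

theorem Pc_nonneg (A : Finset V) (B : V → Finset V) (w : V) : 0 ≤ Pc A B w := by
  unfold Pc
  split_ifs <;> positivity

theorem P_lip (A : Finset V) (B : V → Finset V) (R : V → V → T → T → Prop) (w : V)
    (f f' : V → T) (h : ∀ x, x ≠ w → f x = f' x) : |Pf A B R f - Pf A B R f'| ≤ Pc A B w := by
  have e1 : Pf A B R f - Pf A B R f' = ∑ v ∈ A, ∑ y ∈ B v,
      ((if R v y (f v) (f y) then (1 : ℝ) else 0) - if R v y (f' v) (f' y) then 1 else 0) := by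
    unfold Pf
    rw [← Finset.sum_sub_distrib]
    refine Finset.sum_congr rfl fun v _ => ?_
    rw [← Finset.sum_sub_distrib]
  rw [e1]
  have e2 : Pc A B w = ∑ v ∈ A, ∑ y ∈ B v,
      ((if v = w then (1 : ℝ) else 0) + if y = w then 1 else 0) := by
    unfold Pc
    simp only [Finset.sum_add_distrib]
    congr 1
    · have : ∀ v ∈ A, (∑ y ∈ B v, if v = w then (1 : ℝ) else 0) =
          if v = w then ((B v).card : ℝ) else 0 := by
        intro v _
        split_ifs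
        · simp
        · simp
      rw [Finset.sum_congr rfl this, Finset.sum_ite_eq']
    · rw [Finset.card_filter]
      push_cast
      refine Finset.sum_congr rfl fun v _ => ?_
      rw [Finset.sum_ite_eq']
  rw [e2]
  refine (Finset.abs_sum_le_sum_abs _ _).trans (Finset.sum_le_sum fun v _ => ?_)
  refine (Finset.abs_sum_le_sum_abs _ _).trans (Finset.sum_le_sum fun y _ => ?_)
  by_cases h1 : v = w
  · rw [if_pos h1]
    have h2 : |((if R v y (f v) (f y) then (1 : ℝ) else 0) -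
        if R v y (f' v) (f' y) then 1 else 0)| ≤ 1 := by
      split_ifs <;> simp
    have h3 : (0 : ℝ) ≤ if y = w then 1 else 0 := by split_ifs <;> norm_num
    linarith
  · by_cases h2 : y = w
    · rw [if_neg h1, if_pos h2]
      have h3 : |((if R v y (f v) (f y) then (1 : ℝ) else 0) -
          if R v y (f' v) (f' y) then 1 else 0)| ≤ 1 := by
        split_ifs <;> simp
      linarith
    · rw [if_neg h1, if_neg h2, h v h1, h y h2]
      simp

theorem Pc_sum (A : Finset V) (B : V → Finset V) :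
    ∑ w, Pc A B w = 2 * ∑ v ∈ A, ((B v).card : ℝ) := by
  unfold Pc
  rw [Finset.sum_add_distrib]
  have e1 : ∑ w, (if w ∈ A then ((B w).card : ℝ) else 0) = ∑ v ∈ A, ((B v).card : ℝ) := by
    rw [← Finset.sum_filter]
    congr 1
    ext w
    simp
  have e2 : ∑ w, ((A.filter (fun v => w ∈ B v)).card : ℝ) = ∑ v ∈ A, ((B v).card : ℝ) := by
    have h1 : ∀ w : V, ((A.filter (fun v => w ∈ B v)).card : ℝ) =
        ∑ v ∈ A, if w ∈ B v then (1 : ℝ) else 0 := by
      intro w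
      rw [Finset.card_filter]
      push_cast
      rfl
    rw [Finset.sum_congr rfl fun w _ => h1 w, Finset.sum_comm]
    refine Finset.sum_congr rfl fun v _ => ?_
    rw [← Finset.sum_filter, Finset.sum_const, nsmul_eq_mul, mul_one]
    congr 2
    ext w
    simp
  rw [e1, e2]
  ring

theorem Pc_supp (A : Finset V) (B : V → Finset V) :
    ((univ.filter (fun v => Pc A B v ≠ 0)).card : ℝ) ≤
      (A.card : ℝ) + ∑ v ∈ A, ((B v).card : ℝ) := by
  have hsub : univ.filter (fun v => Pc A B v ≠ 0) ⊆ A ∪ A.biUnion B := by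
    intro w hw
    rw [Finset.mem_filter] at hw
    by_contra hne
    rw [Finset.mem_union, not_or] at hne
    apply hw.2
    unfold Pc
    rw [if_neg hne.1]
    have : A.filter (fun v => w ∈ B v) = ∅ := by
      rw [Finset.filter_eq_empty_iff]
      intro v hv hwv
      exact hne.2 (Finset.mem_biUnion.mpr ⟨v, hv, hwv⟩)
    rw [this]
    simp
  have h1 := (Finset.card_le_card hsub).trans (Finset.card_union_le _ _)
  have h2 : (A.biUnion B).card ≤ ∑ v ∈ A, (B v).card := Finset.card_biUnion_le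
  have h3 : (univ.filter (fun v => Pc A B v ≠ 0)).card ≤ A.card + ∑ v ∈ A, (B v).card := by
    omega
  exact_mod_cast h3

theorem Pf_avg [Fintype T] [Nonempty T] (A : Finset V) (B : V → Finset V)
    (R : V → V → T → T → Prop) (q : ℝ) (hne : ∀ v ∈ A, ∀ y ∈ B v, v ≠ y)
    (h : ∀ v ∈ A, ∀ y ∈ B v, ∀ a, (∑ t, if R v y a t then (1 : ℝ) else 0) ≤
      q * Fintype.card T) :
    avgL (Pf A B R) ≤ q * ∑ v ∈ A, ((B v).card : ℝ) := by
  unfold avgL Pf
  have hpos : (0 : ℝ) < Fintype.card (V → T) := by exact_mod_cast Fintype.card_pos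
  rw [div_le_iff₀ hpos, Finset.sum_comm, Finset.mul_sum, Finset.sum_mul]
  refine Finset.sum_le_sum fun v hv => ?_
  rw [Finset.sum_comm]
  have h1 : ∀ y ∈ B v, (∑ f : V → T, if R v y (f v) (f y) then (1 : ℝ) else 0) ≤
      q * Fintype.card (V → T) := fun y hy =>
    avg2 (hne v hv y hy) (fun a b => if R v y a b then (1 : ℝ) else 0) q (h v hv y hy)
  refine (Finset.sum_le_sum h1).trans (le_of_eq ?_)
  rw [Finset.sum_const, nsmul_eq_mul]
  ring

/-- the square sum -/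
theorem Pc_sq (A : Finset V) (B : V → Finset V) (D : ℝ) (hc : ∀ w, Pc A B w ≤ D) :
    ∑ w, Pc A B w ^ 2 ≤ D * (2 * ∑ v ∈ A, ((B v).card : ℝ)) := by
  rw [← Pc_sum, Finset.mul_sum]
  refine Finset.sum_le_sum fun w _ => ?_
  rw [pow_two]
  exact mul_le_mul_of_nonneg_right (hc w) (Pc_nonneg A B w)

/-- point test -/
noncomputable def Sf (A : Finset V) (R : T → Prop) (f : V → T) : ℝ :=
  ∑ v ∈ A, if R (f v) then 1 else 0

noncomputable def Sc (A : Finset V) (w : V) : ℝ := if w ∈ A then 1 else 0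

theorem Sc_nonneg (A : Finset V) (w : V) : 0 ≤ Sc A w := by
  unfold Sc
  split_ifs <;> norm_num

theorem S_lip (A : Finset V) (R : T → Prop) (w : V) (f f' : V → T)
    (h : ∀ x, x ≠ w → f x = f' x) : |Sf A R f - Sf A R f'| ≤ Sc A w := by
  unfold Sf
  rw [← Finset.sum_sub_distrib]
  have e2 : Sc A w = ∑ v ∈ A, if v = w then (1 : ℝ) else 0 := by
    unfold Sc
    rw [Finset.sum_ite_eq']
  rw [e2]
  refine (Finset.abs_sum_le_sum_abs _ _).trans (Finset.sum_le_sum fun v _ => ?_)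
  by_cases h1 : v = w
  · rw [if_pos h1]
    split_ifs <;> simp
  · rw [if_neg h1, h v h1]
    simp

theorem Sc_sq (A : Finset V) : ∑ w, Sc A w ^ 2 = (A.card : ℝ) := by
  unfold Sc
  have : ∀ w, (if w ∈ A then (1 : ℝ) else 0) ^ 2 = if w ∈ A then 1 else 0 := by
    intro w
    split_ifs <;> norm_num
  rw [Finset.sum_congr rfl fun w _ => this w, ← Finset.sum_filter, Finset.sum_const,
    nsmul_eq_mul, mul_one]
  congr 2
  ext w
  simp

theorem Sc_supp (A : Finset V) : univ.filter (fun v => Sc A v ≠ 0) = A := by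
  ext w
  unfold Sc
  rw [Finset.mem_filter]
  split_ifs with h
  · simp [h]
  · simp [h]

theorem Sf_avg [Fintype T] [Nonempty T] (A : Finset V) (R : T → Prop) (q : ℝ)
    (h : (∑ t, if R t then (1 : ℝ) else 0) ≤ q * Fintype.card T) :
    avgL (Sf A R) ≤ q * A.card := by
  unfold avgL Sf
  have hpos : (0 : ℝ) < Fintype.card (V → T) := by exact_mod_cast Fintype.card_pos
  rw [div_le_iff₀ hpos, Finset.sum_comm]
  have h1 : ∀ v ∈ A, (∑ f : V → T, if R (f v) then (1 : ℝ) else 0) ≤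
      q * Fintype.card (V → T) := fun v _ =>
    avg1 v (fun a => if R a then (1 : ℝ) else 0) q h
  refine (Finset.sum_le_sum h1).trans (le_of_eq ?_)
  rw [Finset.sum_const, nsmul_eq_mul]
  ring

end tests

/-! ## Counting labels -/

section count
variable {l m r K K1 S : ℕ} {X : Type} [Fintype X]

theorem sum_sp (h : Fin (K1 + 1) → ℝ) :
    ∑ t : Lh l m r K K1 S × X, h (sp t.1) =
      1 / ((K1 : ℝ) + 1) * Fintype.card (Lh l m r K K1 S × X) * ∑ s, h s := by
  simp only [Fintype.sum_prod_type]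
  dsimp only [sp]
  simp only [Finset.sum_const, Finset.card_univ, Fintype.card_prod, Fintype.card_fin,
    ZMod.card, nsmul_eq_mul, ← Finset.mul_sum]
  push_cast
  field_simp

theorem sum_pt (h : ZMod 3 → ℝ) :
    ∑ t : Lh l m r K K1 S × X, h (pt t.1) =
      1 / 3 * Fintype.card (Lh l m r K K1 S × X) * ∑ s, h s := by
  simp only [Fintype.sum_prod_type]
  dsimp only [pt]
  simp only [Finset.sum_const, Finset.card_univ, Fintype.card_prod, Fintype.card_fin,
    ZMod.card, nsmul_eq_mul, ← Finset.mul_sum]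
  push_cast
  ring

theorem sum_lam (h : ZMod (2 * l + 1) → ℝ) :
    ∑ t : Lh l m r K K1 S × X, h t.1.1.2.1 =
      1 / (2 * (l : ℝ) + 1) * Fintype.card (Lh l m r K K1 S × X) * ∑ s, h s := by
  simp only [Fintype.sum_prod_type]
  simp only [Finset.sum_const, Finset.card_univ, Fintype.card_prod, Fintype.card_fin,
    ZMod.card, nsmul_eq_mul, ← Finset.mul_sum]
  push_cast
  field_simp

theorem cnt_sp (s0 : Fin (K1 + 1)) :
    (∑ t : Lh l m r K K1 S × X, if sp t.1 = s0 then (1 : ℝ) else 0) =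
      1 / ((K1 : ℝ) + 1) * Fintype.card (Lh l m r K K1 S × X) := by
  rw [sum_sp (fun s => if s = s0 then (1 : ℝ) else 0), Finset.sum_ite_eq']
  simp

theorem cnt_pt (i : ZMod 3) :
    (∑ t : Lh l m r K K1 S × X, if pt t.1 = i then (1 : ℝ) else 0) =
      1 / 3 * Fintype.card (Lh l m r K K1 S × X) := by
  rw [sum_pt (fun s => if s = i then (1 : ℝ) else 0), Finset.sum_ite_eq']
  simp

theorem cnt_mM :
    (∑ t : Lh l m r K K1 S × X, if mM t.1 then (1 : ℝ) else 0) ≤
      1 / (2 * (l : ℝ) + 1) * Fintype.card (Lh l m r K K1 S × X) := by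
  have h2 : (∑ t : Lh l m r K K1 S × X, if mM t.1 then (1 : ℝ) else 0) ≤
      ∑ t : Lh l m r K K1 S × X,
        (fun c : ZMod (2 * l + 1) => if c = ((2 : ℕ) : ZMod (2 * l + 1)) then (1 : ℝ) else 0)
          t.1.1.2.1 := by
    refine Finset.sum_le_sum fun t _ => ?_
    beta_reduce
    split_ifs with h2 h3
    · exact le_rfl
    · exfalso
      apply h3
      have h4 : ((t.1.1.2.1.val : ℕ) : ZMod (2 * l + 1)) = t.1.1.2.1 :=
        ZMod.natCast_zmod_val _
      have h5 : t.1.1.2.1.val = 2 := h2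
      rw [h5] at h4
      exact h4.symm
    · norm_num
    · exact le_rfl
  refine h2.trans (le_of_eq ?_)
  rw [sum_lam (fun c : ZMod (2 * l + 1) => if c = ((2 : ℕ) : ZMod (2 * l + 1)) then (1 : ℝ)
    else 0), Finset.sum_ite_eq']
  simp

end count

/-! ## The tests -/

section main
variable {V : Type u} [Fintype V]

theorem pair_big {ε W : ℝ} (A : Finset V) (B : V → Finset V) (d : ℕ) (hd : 3 ≤ d)
    (hc : ∀ w, Pc A B w ≤ d) (hN : ∑ v ∈ A, ((B v).card : ℝ) ≤ W)
    (hA : (A.card : ℝ) ≤ 101 / 100 * d) (hW : Real.log d ^ 3 * (99 / 100 * d) ≤ W) :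
    ε ^ 2 / 100 * (Real.log d ^ 2 + ((univ.filter (fun v => Pc A B v ≠ 0)).card : ℝ) / d) *
      ∑ v, Pc A B v ^ 2 ≤ (ε * W / 2) ^ 2 := by
  have hd3 : (3 : ℝ) ≤ d := by exact_mod_cast hd
  have hd0 : (0 : ℝ) < d := by linarith
  have hL : 1 ≤ Real.log d := by
    rw [Real.le_log_iff_exp_le hd0]
    have := Real.exp_one_lt_d9
    linarith
  obtain ⟨L, hLe⟩ : ∃ L, L = Real.log d := ⟨_, rfl⟩
  rw [← hLe] at hW hL ⊢
  have hN0 : 0 ≤ ∑ v ∈ A, ((B v).card : ℝ) := Finset.sum_nonneg fun v _ => Nat.cast_nonneg _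
  have h1 := Pc_supp A B
  have h2 := Pc_sq A B d hc
  have h3 : ∑ v, Pc A B v ^ 2 ≤ 2 * d * W := by
    have : (d : ℝ) * (2 * ∑ v ∈ A, ((B v).card : ℝ)) ≤ d * (2 * W) :=
      mul_le_mul_of_nonneg_left (by linarith) hd0.le
    linarith
  have hL2 : 1 ≤ L ^ 2 := one_le_pow₀ hL
  have hL3 : L ^ 2 ≤ L ^ 3 := pow_le_pow_right₀ hL (by norm_num)
  have hW1 : L ^ 2 * (99 / 100 * d) ≤ W := by
    have : L ^ 2 * (99 / 100 * d) ≤ L ^ 3 * (99 / 100 * d) :=
      mul_le_mul_of_nonneg_right hL3 (by positivity)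
    linarith
  have hdW : 99 / 100 * (d : ℝ) ≤ W := by
    have : 1 * (99 / 100 * (d : ℝ)) ≤ L ^ 2 * (99 / 100 * d) :=
      mul_le_mul_of_nonneg_right hL2 (by positivity)
    linarith
  have hW0 : 0 ≤ W := by linarith
  have h4 : ((univ.filter (fun v => Pc A B v ≠ 0)).card : ℝ) / d ≤ (101 / 100 * d + W) / d :=
    div_le_div_of_nonneg_right (by linarith) hd0.le
  have h5 : L ^ 2 + ((univ.filter (fun v => Pc A B v ≠ 0)).card : ℝ) / d ≤
      L ^ 2 + (101 / 100 * d + W) / d := by linarith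
  have h6 : (0 : ℝ) ≤ L ^ 2 + (101 / 100 * d + W) / d := by positivity
  have h7 : (0 : ℝ) ≤ ∑ v, Pc A B v ^ 2 := Finset.sum_nonneg fun v _ => sq_nonneg _
  have h8 : (L ^ 2 + ((univ.filter (fun v => Pc A B v ≠ 0)).card : ℝ) / d) *
      ∑ v, Pc A B v ^ 2 ≤ (L ^ 2 + (101 / 100 * d + W) / d) * (2 * d * W) :=
    mul_le_mul h5 h3 h7 h6
  have h9 : (L ^ 2 + (101 / 100 * d + W) / d) * (2 * d * W) =
      2 * W * (L ^ 2 * d + 101 / 100 * d + W) := by
    field_simp
    ring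
  have h10 : L ^ 2 * d + 101 / 100 * d + W ≤ 4 * W := by linarith
  have h11 : 2 * W * (L ^ 2 * d + 101 / 100 * d + W) ≤ 2 * W * (4 * W) :=
    mul_le_mul_of_nonneg_left h10 (by positivity)
  have h12 : ε ^ 2 / 100 * (L ^ 2 + ((univ.filter (fun v => Pc A B v ≠ 0)).card : ℝ) / d) *
      ∑ v, Pc A B v ^ 2 ≤ ε ^ 2 / 100 * (8 * W ^ 2) := by
    rw [mul_assoc]
    exact mul_le_mul_of_nonneg_left (by linarith) (by positivity)
  refine h12.trans ?_
  have : 0 ≤ ε ^ 2 * W ^ 2 := by positivity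
  nlinarith

theorem point_big {ε : ℝ} (A : Finset V) (d : ℕ) (hd : 3 ≤ d)
    (hA : (A.card : ℝ) ≤ 11 / 10 * Real.log d ^ 8) :
    ε ^ 2 / 100 * (Real.log d ^ 2 + ((univ.filter (fun v => Sc A v ≠ 0)).card : ℝ) / d) *
      ∑ v, Sc A v ^ 2 ≤ (ε * Real.log d ^ 8 / 2) ^ 2 := by
  have hd3 : (3 : ℝ) ≤ d := by exact_mod_cast hd
  have hd0 : (0 : ℝ) < d := by linarith
  have hL : 1 ≤ Real.log d := by
    rw [Real.le_log_iff_exp_le hd0]
    have := Real.exp_one_lt_d9
    linarith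
  rw [Sc_supp, Sc_sq]
  obtain ⟨L, hLe⟩ : ∃ L, L = Real.log d := ⟨_, rfl⟩
  rw [← hLe] at hL hA ⊢
  have hL2 : L ^ 2 ≤ L ^ 8 := pow_le_pow_right₀ hL (by norm_num)
  have hL8 : 0 ≤ L ^ 8 := by positivity
  have hA0 : (0 : ℝ) ≤ A.card := Nat.cast_nonneg _
  have h4 : (A.card : ℝ) / d ≤ 11 / 10 * L ^ 8 := by
    rw [div_le_iff₀ hd0]
    have : 11 / 10 * L ^ 8 * 1 ≤ 11 / 10 * L ^ 8 * d :=
      mul_le_mul_of_nonneg_left (by linarith) (by positivity)
    linarith
  have h5 : (L ^ 2 + (A.card : ℝ) / d) * A.card ≤ (21 / 10 * L ^ 8) * (11 / 10 * L ^ 8) :=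
    mul_le_mul (by linarith) hA hA0 (by positivity)
  rw [mul_assoc]
  refine (mul_le_mul_of_nonneg_left h5 (by positivity)).trans ?_
  have : 0 ≤ ε ^ 2 * (L ^ 8) ^ 2 := by positivity
  nlinarith

/-- the outer neighbours -/
noncomputable def B1 (G : SimpleGraph V) (Ys : Finset (Finset V)) (v : V) : Finset V :=
  (nb G v).filter (fun y => ¬ InS Ys y)

section facts
variable {k : ℕ} {θ θ' η εg : ℝ} {G EH : SimpleGraph V} {d : ℕ} {Ys : Finset (Finset V)}
  {UH Hs Gd : Finset V} {c0 tu : V → Fin k} {B : V → Finset V} {Y : Finset V}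

theorem sub_nb (hB : ∀ v, B v ⊆ B1 G Ys v) {v y : V} (h : y ∈ B v) :
    y ∈ nb G v ∧ ¬ InS Ys y := by
  have := hB v h
  unfold B1 at this
  rw [Finset.mem_filter] at this
  exact this

theorem f_ne (hB : ∀ v, B v ⊆ B1 G Ys v) (hY : Y ∈ Ys) : ∀ v ∈ Y \ Hs, ∀ y ∈ B v, v ≠ y := by
  intro v hv y hy hvy
  have h1 := (sub_nb hB hy).2
  apply h1
  rw [← hvy]
  exact ⟨Y, hY, (Finset.mem_sdiff.mp hv).1⟩

theorem f_c (hG : Grp θ θ' η G EH d Ys UH Hs c0 tu) (hB : ∀ v, B v ⊆ B1 G Ys v)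
    (hY : Y ∈ Ys) (w : V) : Pc (Y \ Hs) B w ≤ d := by
  unfold Pc
  by_cases hw : w ∈ Y \ Hs
  · rw [if_pos hw]
    have h1 : (Y \ Hs).filter (fun v => w ∈ B v) = ∅ := by
      rw [Finset.filter_eq_empty_iff]
      intro v hv h
      exact f_ne hB hY v hv w h (by
        exfalso
        exact (sub_nb hB h).2 ⟨Y, hY, (Finset.mem_sdiff.mp hw).1⟩)
    rw [h1, Finset.card_empty]
    have h2 : (B w).card ≤ d := by
      refine (Finset.card_le_card (fun y hy => (sub_nb hB hy).1)).trans (hG.deg w)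
    have h3 : ((B w).card : ℝ) ≤ d := by exact_mod_cast h2
    simpa using h3
  · rw [if_neg hw, zero_add]
    have h2 : ((Y \ Hs).filter (fun v => w ∈ B v)).card ≤ d := by
      refine (Finset.card_le_card (fun v hv => ?_)).trans (hG.deg w)
      rw [Finset.mem_filter] at hv
      have h3 := (sub_nb hB hv.2).1
      rw [mem_nb'] at h3 ⊢
      exact h3.symm
    exact_mod_cast h2

theorem f_N (hG : Grp θ θ' η G EH d Ys UH Hs c0 tu) (hB : ∀ v, B v ⊆ B1 G Ys v)
    (hY : Y ∈ Ys) : ∑ v ∈ Y \ Hs, ((B v).card : ℝ) ≤ wl G d Hs Y := by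
  unfold wl
  refine Finset.sum_le_sum fun v _ => ?_
  have h1 : (B v).card + (nb G v ∩ Y).card ≤ d := by
    have h2 : Disjoint (B v) (nb G v ∩ Y) := by
      rw [Finset.disjoint_left]
      intro y hy hy'
      exact (sub_nb hB hy).2 ⟨Y, hY, (Finset.mem_inter.mp hy').2⟩
    rw [← Finset.card_union_of_disjoint h2]
    refine (Finset.card_le_card (fun y hy => ?_)).trans (hG.deg v)
    rw [Finset.mem_union] at hy
    rcases hy with h | h
    · exact (sub_nb hB h).1
    · exact (Finset.mem_inter.mp h).1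
  have h2 : ((B v).card : ℝ) + ((nb G v ∩ Y).card : ℝ) ≤ d := by exact_mod_cast h1
  linarith

theorem mem_shs (h : Y ∈ shs d Ys) : Y ∈ Ys := by
  unfold shs at h
  exact (Finset.mem_filter.mp h).1

theorem f_W (hG : Grp θ θ' η G EH d Ys UH Hs c0 tu) (hθ : θ ≤ 1 / 100) (hd : 3 ≤ d)
    (hY : Y ∈ shs d Ys) (hY' : Y ∉ sms G d Hs Ys) :
    Real.log d ^ 3 * (99 / 100 * d) ≤ wl G d Hs Y := by
  have h1 : Real.log d ^ 3 * Y.card ≤ wl G d Hs Y := by
    by_contra h
    apply hY'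
    unfold sms
    rw [Finset.mem_filter]
    exact ⟨hY, not_le.mp h⟩
  have h2 := hG.low Y (mem_shs hY)
  have hd0 : (0 : ℝ) ≤ d := Nat.cast_nonneg _
  have hL : 0 ≤ Real.log d := Real.log_nonneg (by
    have : (3 : ℝ) ≤ d := by exact_mod_cast hd
    linarith)
  have h3 : 99 / 100 * (d : ℝ) ≤ Y.card := by
    have : θ * d ≤ 1 / 100 * d := mul_le_mul_of_nonneg_right hθ hd0
    linarith
  exact (mul_le_mul_of_nonneg_left h3 (by positivity)).trans h1

theorem f_A (hG : Grp θ θ' η G EH d Ys UH Hs c0 tu) (hθ : θ ≤ 1 / 100) (hY : Y ∈ Ys) :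
    ((Y \ Hs).card : ℝ) ≤ 101 / 100 * d := by
  have h1 := hG.upp Y hY
  have h2 : ((Y \ Hs).card : ℝ) ≤ Y.card := by
    exact_mod_cast Finset.card_le_card Finset.sdiff_subset
  have hd0 : (0 : ℝ) ≤ d := Nat.cast_nonneg _
  have : θ * d ≤ 1 / 100 * d := mul_le_mul_of_nonneg_right hθ hd0
  linarith

theorem card_Sv (hG : Grp θ θ' η G EH d Ys UH Hs c0 tu) (v : V) :
    (Ys.filter (fun Y => ∃ x ∈ insert v (nb G v), x ∈ Y)).card ≤ d + 1 := by
  have hsub : Ys.filter (fun Y => ∃ x ∈ insert v (nb G v), x ∈ Y) ⊆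
      (insert v (nb G v)).biUnion (fun x => Ys.filter (fun Y => x ∈ Y)) := by
    intro Y hY
    rw [Finset.mem_filter] at hY
    obtain ⟨h1, x, hx, hxY⟩ := hY
    rw [Finset.mem_biUnion]
    exact ⟨x, hx, Finset.mem_filter.mpr ⟨h1, hxY⟩⟩
  refine (Finset.card_le_card hsub).trans (Finset.card_biUnion_le.trans ?_)
  have h1 : ∀ x ∈ insert v (nb G v), (Ys.filter (fun Y => x ∈ Y)).card ≤ 1 := by
    intro x _
    rw [Finset.card_le_one]
    intro Y hY Y' hY'
    rw [Finset.mem_filter] at hY hY'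
    by_contra hne
    exact Finset.disjoint_left.mp (hG.dis Y hY.1 Y' hY'.1 hne) hY.2 hY'.2
  refine (Finset.sum_le_sum h1).trans ?_
  rw [Finset.sum_const, smul_eq_mul, mul_one]
  refine (Finset.card_insert_le _ _).trans ?_
  have := hG.deg v
  omega

end facts

end main

theorem stmt_TLA : Stmt_TLA.{u} := by
  intro ε hε
  refine ⟨⌈8 / ε⌉₊, ε ^ 2 / 100, by positivity, ?_⟩
  intro l m r K K1 S X _ _ hK hl
  refine ⟨(K1 + 1) * (K1 + 1) + 3, ?_⟩
  intro V _ k θ θ' η εg δ1 G EH d Ys UH Hs Gd c0 tu um jm hd hθ hεg hG hGd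
  have hd3 : 3 ≤ d := by omega
  have hd3' : (3 : ℝ) ≤ d := by exact_mod_cast hd3
  have hd0 : (0 : ℝ) < d := by linarith
  have hL : 1 ≤ Real.log d := by
    rw [Real.le_log_iff_exp_le hd0]
    have := Real.exp_one_lt_d9
    linarith
  have hL8 : 0 < Real.log d ^ 8 := by positivity
  have hK1 : 8 / ε ≤ (K1 : ℝ) + 1 := by
    have h1 : 8 / ε ≤ (K1 : ℝ) := (Nat.le_ceil _).trans (by exact_mod_cast hK)
    linarith
  have hK1' : 1 / ((K1 : ℝ) + 1) ≤ ε / 8 := by
    rw [div_le_iff₀ hε] at hK1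
    rw [div_le_div_iff₀ (by positivity) (by norm_num)]
    linarith
  -- the sets
  obtain ⟨B2, hB2⟩ : ∃ B2 : V → Finset V, B2 = fun v => (nb G v).filter (fun y => ¬ InS Ys y ∧
    y ∉ UH ∧ (bt G (shs d Ys) (Lts Ys Hs) y : ℝ) ≤ δ1 * d) := ⟨_, rfl⟩
  have hB1s : ∀ v, B1 G Ys v ⊆ B1 G Ys v := fun v => subset_rfl
  have hB2s : ∀ v, B2 v ⊆ B1 G Ys v := by
    intro v y hy
    rw [hB2, Finset.mem_filter] at hy
    unfold B1
    rw [Finset.mem_filter]
    exact ⟨hy.1, hy.2.1⟩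
  obtain ⟨A1, hA1⟩ : ∃ A1 : Finset V → Finset V, A1 = fun Y =>
    if Y ∈ shs d Ys ∧ Y ∉ sms G d Hs Ys then Y \ Hs else ∅ := ⟨_, rfl⟩
  obtain ⟨A3, hA3⟩ : ∃ A3 : Finset V → Finset V, A3 = fun Y =>
    if Y ∈ sms G d Hs Ys then Y ∩ Gd else ∅ := ⟨_, rfl⟩
  obtain ⟨R1, hR1⟩ : ∃ R1 : V → V → (Lh l m r K K1 S × X) → (Lh l m r K K1 S × X) → Prop,
    R1 = fun _ _ a b => sp b.1 = sp a.1 := ⟨_, rfl⟩
  obtain ⟨R2, hR2⟩ : ∃ R2 : V → V → (Lh l m r K K1 S × X) → (Lh l m r K K1 S × X) → Prop,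
    R2 = fun v _ _ b => mM b.1 ∨ pt b.1 = um v ∨ pt b.1 = jm := ⟨_, rfl⟩
  obtain ⟨R3, hR3⟩ : ∃ R3 : Fin (K1 + 1) × Fin (K1 + 1) → (Lh l m r K K1 S × X) → Prop,
    R3 = fun p b => sp b.1 = p.1 ∨ sp b.1 = p.2 := ⟨_, rfl⟩
  have pos1 : ∀ Y, Y ∈ shs d Ys → Y ∉ sms G d Hs Ys → A1 Y = Y \ Hs := by
    intro Y h1 h2
    rw [hA1]
    exact if_pos ⟨h1, h2⟩
  have neg1 : ∀ Y, ¬ (Y ∈ shs d Ys ∧ Y ∉ sms G d Hs Ys) → A1 Y = ∅ := by
    intro Y h
    rw [hA1]
    exact if_neg h
  have pos3 : ∀ Y, Y ∈ sms G d Hs Ys → A3 Y = Y ∩ Gd := by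
    intro Y h
    rw [hA3]
    exact if_pos h
  have neg3 : ∀ Y, Y ∉ sms G d Hs Ys → A3 Y = ∅ := by
    intro Y h
    rw [hA3]
    exact if_neg h
  have smsY : ∀ Y, Y ∈ sms G d Hs Ys → Y ∈ Ys := by
    intro Y h
    unfold sms at h
    exact mem_shs (Finset.mem_filter.mp h).1
  have hA3c : ∀ Y, ((A3 Y).card : ℝ) ≤ 11 / 10 * Real.log d ^ 8 := by
    intro Y
    by_cases h : Y ∈ sms G d Hs Ys
    · rw [pos3 Y h]
      have h1 := (abs_le.mp (hGd.t0 Y h)).2
      have h2 : εg * Real.log d ^ 8 ≤ 1 / 10 * Real.log d ^ 8 :=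
        mul_le_mul_of_nonneg_right hεg hL8.le
      linarith
    · rw [neg3 Y h, Finset.card_empty]
      push_cast
      positivity
  obtain ⟨tp, htp⟩ : ∃ tp : Finset V → ℝ, tp = fun Y =>
    if Y ∈ shs d Ys ∧ Y ∉ sms G d Hs Ys then ε * wl G d Hs Y / 2 else 1 := ⟨_, rfl⟩
  have hwl : ∀ Y, Y ∈ shs d Ys → Y ∉ sms G d Hs Ys → 0 < wl G d Hs Y := by
    intro Y h1 h2
    have h3 := f_W hG hθ hd3 h1 h2
    have : 0 < Real.log d ^ 3 * (99 / 100 * d) := by positivity
    linarith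
  have tpos : ∀ Y, 0 < tp Y := by
    intro Y
    rw [htp]
    beta_reduce
    split_ifs with h
    · have := hwl Y h.1 h.2
      positivity
    · norm_num
  obtain ⟨Φ, hΦ⟩ : ∃ Φ : (Finset V × Option (Option (Fin (K1 + 1) × Fin (K1 + 1)))) →
      (V → Lh l m r K K1 S × X) → ℝ, Φ = fun j => match j.2 with
        | none => Pf (A1 j.1) (B1 G Ys) R1
        | some none => Pf (A1 j.1) B2 R2
        | some (some p) => Sf (A3 j.1) (R3 p) := ⟨_, rfl⟩
  obtain ⟨ct, hct⟩ : ∃ ct : (Finset V × Option (Option (Fin (K1 + 1) × Fin (K1 + 1)))) →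
      V → ℝ, ct = fun j => match j.2 with
        | none => Pc (A1 j.1) (B1 G Ys)
        | some none => Pc (A1 j.1) B2
        | some (some _) => Sc (A3 j.1) := ⟨_, rfl⟩
  obtain ⟨tt, htt⟩ : ∃ tt : (Finset V × Option (Option (Fin (K1 + 1) × Fin (K1 + 1)))) → ℝ,
      tt = fun j => match j.2 with
        | none => tp j.1
        | some none => tp j.1
        | some (some _) => ε * Real.log d ^ 8 / 2 := ⟨_, rfl⟩
  have bigp : ∀ (B : V → Finset V), (∀ v, B v ⊆ B1 G Ys v) → ∀ Y,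
      ε ^ 2 / 100 * (Real.log d ^ 2 + ((univ.filter (fun v => Pc (A1 Y) B v ≠ 0)).card : ℝ) / d) *
        ∑ v, Pc (A1 Y) B v ^ 2 ≤ tp Y ^ 2 := by
    intro B hB Y
    by_cases h : Y ∈ shs d Ys ∧ Y ∉ sms G d Hs Ys
    · have e : tp Y = ε * wl G d Hs Y / 2 := by
        rw [htp]
        exact if_pos h
      rw [e, pos1 Y h.1 h.2]
      exact pair_big _ _ d hd3 (f_c hG hB (mem_shs h.1)) (f_N hG hB (mem_shs h.1))
        (f_A hG hθ (mem_shs h.1)) (f_W hG hθ hd3 h.1 h.2)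
    · rw [neg1 Y h]
      have h1 : ∀ v, Pc (∅ : Finset V) B v = 0 := by
        intro v
        unfold Pc
        simp
      simp only [h1]
      have := tpos Y
      simp only [ne_eq, not_true_eq_false, Finset.filter_false, zero_pow, Finset.sum_const_zero,
        mul_zero, OfNat.ofNat_ne_zero, not_false_eq_true]
      positivity
  have pcY : ∀ (B : V → Finset V), (∀ v, B v ⊆ B1 G Ys v) → ∀ Y v, Pc (A1 Y) B v ≠ 0 →
      Y ∈ Ys ∧ ∃ x ∈ insert v (nb G v), x ∈ Y := by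
    intro B hB Y v hne
    by_cases h : Y ∈ shs d Ys ∧ Y ∉ sms G d Hs Ys
    · refine ⟨mem_shs h.1, ?_⟩
      rw [pos1 Y h.1 h.2] at hne
      by_contra hno
      push Not at hno
      apply hne
      unfold Pc
      rw [if_neg (fun hv => hno v (Finset.mem_insert_self _ _) (Finset.mem_sdiff.mp hv).1)]
      have h1 : (Y \ Hs).filter (fun x => v ∈ B x) = ∅ := by
        rw [Finset.filter_eq_empty_iff]
        intro x hx hvx
        have h2 := (sub_nb hB hvx).1
        refine hno x (Finset.mem_insert_of_mem ?_) (Finset.mem_sdiff.mp hx).1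
        rw [mem_nb'] at h2 ⊢
        exact h2.symm
      rw [h1]
      simp
    · exfalso
      apply hne
      rw [neg1 Y h]
      unfold Pc
      simp
  refine ⟨Finset V × Option (Option (Fin (K1 + 1) × Fin (K1 + 1))), inferInstance, Φ, ct, tt,
    ⟨?_, ?_, ?_, ?_, ?_⟩, ?_⟩
  · rintro ⟨Y, _ | _ | p⟩ v
    · rw [hct]; exact Pc_nonneg _ _ _
    · rw [hct]; exact Pc_nonneg _ _ _
    · rw [hct]; exact Sc_nonneg _ _
  · rintro ⟨Y, _ | _ | p⟩ v f f' h
    · rw [hct, hΦ]; exact P_lip _ _ _ _ _ _ h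
    · rw [hct, hΦ]; exact P_lip _ _ _ _ _ _ h
    · rw [hct, hΦ]; exact S_lip _ _ _ _ _ h
  · intro v
    have hsub : univ.filter (fun j => ct j v ≠ 0) ⊆
        (Ys.filter (fun Y => ∃ x ∈ insert v (nb G v), x ∈ Y)) ×ˢ
          (univ : Finset (Option (Option (Fin (K1 + 1) × Fin (K1 + 1))))) := by
      rintro ⟨Y, o⟩ hj
      rw [Finset.mem_filter] at hj
      rw [Finset.mem_product, Finset.mem_filter]
      refine ⟨?_, Finset.mem_univ _⟩
      have hj2 := hj.2
      rw [hct] at hj2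
      rcases o with _ | _ | p
      · exact pcY _ hB1s Y v hj2
      · exact pcY _ hB2s Y v hj2
      · have hj3 : Sc (A3 Y) v ≠ 0 := hj2
        have h1 : v ∈ A3 Y := by
          by_contra h
          apply hj3
          unfold Sc
          rw [if_neg h]
        by_cases h : Y ∈ sms G d Hs Ys
        · rw [pos3 Y h] at h1
          exact ⟨smsY Y h, v, Finset.mem_insert_self _ _, (Finset.mem_inter.mp h1).1⟩
        · rw [neg3 Y h] at h1
          exact absurd h1 (Finset.notMem_empty _)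
    refine (Finset.card_le_card hsub).trans ?_
    rw [Finset.card_product, Finset.card_univ, Fintype.card_option, Fintype.card_option,
      Fintype.card_prod, Fintype.card_fin]
    have h1 := card_Sv hG v
    have h2 : (K1 + 1) * (K1 + 1) + 1 + 1 ≤ d - 1 := by omega
    calc (Ys.filter (fun Y => ∃ x ∈ insert v (nb G v), x ∈ Y)).card *
        ((K1 + 1) * (K1 + 1) + 1 + 1) ≤ (d + 1) * (d - 1) := Nat.mul_le_mul h1 h2
      _ ≤ d ^ 3 := by
        obtain ⟨e, rfl⟩ : ∃ e, d = e + 1 := ⟨d - 1, by omega⟩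
        simp only [Nat.add_sub_cancel]
        nlinarith [Nat.zero_le e, Nat.zero_le (e * e), Nat.zero_le (e * e * e)]
  · rintro ⟨Y, _ | _ | p⟩
    · rw [htt]; exact tpos Y
    · rw [htt]; exact tpos Y
    · rw [htt]
      show 0 < ε * Real.log d ^ 8 / 2
      positivity
  · rintro ⟨Y, _ | _ | p⟩
    · rw [htt, hct]; exact bigp _ hB1s Y
    · rw [htt, hct]; exact bigp _ hB2s Y
    · rw [htt, hct]; exact point_big _ d hd3 (hA3c Y)
  -- the consequences
  intro lab hlab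
  have hPf : ∀ (A : Finset V) (B : V → Finset V)
      (R : V → V → (Lh l m r K K1 S × X) → (Lh l m r K K1 S × X) → Prop),
      Pf A B R lab = ((∑ v ∈ A, ((B v).filter (fun y => R v y (lab v) (lab y))).card : ℕ) : ℝ) := by
    intro A B R
    unfold Pf
    push_cast
    refine Finset.sum_congr rfl fun v _ => ?_
    rw [Finset.card_filter]
    push_cast
    rfl
  refine ⟨?_, ?_, ?_⟩
  · intro Y hY hY'
    have h1 := (abs_le.mp (hlab ⟨Y, none⟩)).2
    have e1 : Φ ⟨Y, none⟩ = Pf (Y \ Hs) (B1 G Ys) R1 := by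
      rw [hΦ, ← pos1 Y hY hY']
    have e2 : tt ⟨Y, none⟩ = ε * wl G d Hs Y / 2 := by
      rw [htt]
      show tp Y = _
      rw [htp]
      exact if_pos ⟨hY, hY'⟩
    rw [e1, e2, hPf] at h1
    have h2 : avgL (Pf (Y \ Hs) (B1 G Ys) R1) ≤ 1 / ((K1 : ℝ) + 1) *
        ∑ v ∈ Y \ Hs, ((B1 G Ys v).card : ℝ) := by
      refine Pf_avg _ _ _ _ (f_ne hB1s (mem_shs hY)) ?_
      intro v _ y _ a
      rw [sum_if _ (fun t : Lh l m r K K1 S × X => sp t.1 = sp a.1) (fun t => by rw [hR1])]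
      exact (cnt_sp (sp a.1)).le
    have h3 := f_N hG hB1s (mem_shs hY)
    have h4 : 1 / ((K1 : ℝ) + 1) * ∑ v ∈ Y \ Hs, ((B1 G Ys v).card : ℝ) ≤
        ε / 8 * wl G d Hs Y :=
      mul_le_mul hK1' h3 (Finset.sum_nonneg fun _ _ => Nat.cast_nonneg _) (by positivity)
    have h5 := hwl Y hY hY'
    have h6 : 0 < ε * wl G d Hs Y := by positivity
    have e3 : ∑ v ∈ Y \ Hs, ((B1 G Ys v).filter (fun y => R1 v y (lab v) (lab y))).card =
        ∑ v ∈ Y \ Hs, ((nb G v).filter (fun y => ¬ InS Ys y ∧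
          sp (lab y).1 = sp (lab v).1)).card := by
      refine Finset.sum_congr rfl fun v _ => ?_
      unfold B1
      congr 1
      ext y
      rw [hR1]
      simp only [Finset.mem_filter]
      tauto
    rw [e3] at h1
    have key : ((∑ v ∈ Y \ Hs, ((nb G v).filter (fun y => ¬ InS Ys y ∧
          sp (lab y).1 = sp (lab v).1)).card : ℕ) : ℝ) ≤ ε * wl G d Hs Y := by linarith
    refine le_trans (le_of_eq ?_) key
    congr 1
    refine Finset.sum_congr rfl fun v _ => ?_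
    congr 1
    ext y
    simp only [Finset.mem_filter]
  · intro Y hY hY'
    have h1 := (abs_le.mp (hlab ⟨Y, some none⟩)).2
    have e1 : Φ ⟨Y, some none⟩ = Pf (Y \ Hs) B2 R2 := by
      rw [hΦ, ← pos1 Y hY hY']
    have e2 : tt ⟨Y, some none⟩ = ε * wl G d Hs Y / 2 := by
      rw [htt]
      show tp Y = _
      rw [htp]
      exact if_pos ⟨hY, hY'⟩
    rw [e1, e2, hPf] at h1
    have hl' : (20 : ℝ) ≤ l := by exact_mod_cast hl
    have h2 : avgL (Pf (Y \ Hs) B2 R2) ≤ 3 / 4 * ∑ v ∈ Y \ Hs, ((B2 v).card : ℝ) := by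
      refine Pf_avg _ _ _ _ (f_ne hB2s (mem_shs hY)) ?_
      intro v _ y _ a
      rw [sum_if _ (fun t : Lh l m r K K1 S × X => mM t.1 ∨ pt t.1 = um v ∨ pt t.1 = jm)
        (fun t => by rw [hR2])]
      have h3 := cnt_mM (l := l) (m := m) (r := r) (K := K) (K1 := K1) (S := S) (X := X)
      have h4 := (cnt_pt (l := l) (m := m) (r := r) (K := K) (K1 := K1) (S := S) (X := X)
        (um v)).le
      have h5 := (cnt_pt (l := l) (m := m) (r := r) (K := K) (K1 := K1) (S := S) (X := X)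
        jm).le
      have h6 : (∑ t : Lh l m r K K1 S × X,
          if mM t.1 ∨ pt t.1 = um v ∨ pt t.1 = jm then (1 : ℝ) else 0) ≤
          ∑ t : Lh l m r K K1 S × X, ((if mM t.1 then (1 : ℝ) else 0) +
            (if pt t.1 = um v then (1 : ℝ) else 0) + if pt t.1 = jm then (1 : ℝ) else 0) := by
        refine Finset.sum_le_sum fun t _ => ?_
        by_cases c1 : mM t.1
        · simp only [c1, true_or, if_true]
          have : (0 : ℝ) ≤ if pt t.1 = um v then 1 else 0 := by split_ifs <;> norm_num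
          have : (0 : ℝ) ≤ if pt t.1 = jm then 1 else 0 := by split_ifs <;> norm_num
          linarith
        · by_cases c2 : pt t.1 = um v
          · simp only [c1, c2, false_or, true_or, if_true, if_false]
            have : (0 : ℝ) ≤ if um v = jm then 1 else 0 := by split_ifs <;> norm_num
            linarith
          · simp only [c1, c2, false_or, if_false]
            linarith
      rw [Finset.sum_add_distrib, Finset.sum_add_distrib] at h6
      refine h6.trans ?_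
      have h7 : 1 / (2 * (l : ℝ) + 1) ≤ 1 / 41 := by
        apply one_div_le_one_div_of_le (by norm_num)
        linarith
      have h8 : (0 : ℝ) ≤ (Fintype.card (Lh l m r K K1 S × X) : ℝ) := Nat.cast_nonneg _
      have h9 : 1 / (2 * (l : ℝ) + 1) * (Fintype.card (Lh l m r K K1 S × X) : ℝ) ≤
          1 / 41 * (Fintype.card (Lh l m r K K1 S × X) : ℝ) :=
        mul_le_mul_of_nonneg_right h7 h8
      linarith
    have h5 := hwl Y hY hY'
    have h6 : 0 < ε * wl G d Hs Y := by positivity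
    have e3 : ∑ v ∈ Y \ Hs, ((B2 v).filter (fun y => R2 v y (lab v) (lab y))).card =
        ∑ v ∈ Y \ Hs, ((nb G v).filter (fun y => ¬ InS Ys y ∧ y ∉ UH ∧
          (bt G (shs d Ys) (Lts Ys Hs) y : ℝ) ≤ δ1 * d ∧
          (mM (lab y).1 ∨ pt (lab y).1 = um v ∨ pt (lab y).1 = jm))).card := by
      refine Finset.sum_congr rfl fun v _ => ?_
      rw [hB2]
      congr 1
      ext y
      rw [hR2]
      simp only [Finset.mem_filter]
      tauto
    have e4 : ∑ v ∈ Y \ Hs, ((B2 v).card : ℝ) =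
        ((∑ v ∈ Y \ Hs, ((nb G v).filter (fun y => ¬ InS Ys y ∧ y ∉ UH ∧
          (bt G (shs d Ys) (Lts Ys Hs) y : ℝ) ≤ δ1 * d)).card : ℕ) : ℝ) := by
      rw [hB2]
      push_cast
      rfl
    rw [e3] at h1
    rw [e4] at h2
    have key : ((∑ v ∈ Y \ Hs, ((nb G v).filter (fun y => ¬ InS Ys y ∧ y ∉ UH ∧
          (bt G (shs d Ys) (Lts Ys Hs) y : ℝ) ≤ δ1 * d ∧
          (mM (lab y).1 ∨ pt (lab y).1 = um v ∨ pt (lab y).1 = jm))).card : ℕ) : ℝ) ≤
        3 / 4 * ((∑ v ∈ Y \ Hs, ((nb G v).filter (fun y => ¬ InS Ys y ∧ y ∉ UH ∧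
          (bt G (shs d Ys) (Lts Ys Hs) y : ℝ) ≤ δ1 * d)).card : ℕ) : ℝ) + ε * wl G d Hs Y := by
      linarith
    refine le_trans (le_of_eq ?_) (key.trans (le_of_eq ?_))
    · congr 1
      refine Finset.sum_congr rfl fun v _ => ?_
      congr 1
      ext y
      simp only [Finset.mem_filter]
    · congr 3
  · intro Y hY s s'
    have h1 := (abs_le.mp (hlab ⟨Y, some (some (s, s'))⟩)).2
    have e1 : Φ ⟨Y, some (some (s, s'))⟩ = Sf (Y ∩ Gd) (R3 (s, s')) := by
      rw [hΦ, ← pos3 Y hY]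
    have e2 : tt ⟨Y, some (some (s, s'))⟩ = ε * Real.log d ^ 8 / 2 := by
      rw [htt]
    have e3 : Sf (Y ∩ Gd) (R3 (s, s')) lab = (((Y ∩ Gd).filter (fun v =>
        sp (lab v).1 = s ∨ sp (lab v).1 = s')).card : ℝ) := by
      unfold Sf
      rw [Finset.card_filter]
      push_cast
      refine Finset.sum_congr rfl fun v _ => if_congr ?_ rfl rfl
      rw [hR3]
    rw [e1, e2, e3] at h1
    have h2 : avgL (Sf (Y ∩ Gd) (R3 (s, s'))) ≤ 2 / ((K1 : ℝ) + 1) * (Y ∩ Gd).card := by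
      refine Sf_avg _ _ _ ?_
      rw [sum_if _ (fun t : Lh l m r K K1 S × X => sp t.1 = s ∨ sp t.1 = s')
        (fun t => by rw [hR3])]
      have h4 := (cnt_sp (l := l) (m := m) (r := r) (K := K) (K1 := K1) (S := S) (X := X) s).le
      have h5 := (cnt_sp (l := l) (m := m) (r := r) (K := K) (K1 := K1) (S := S) (X := X) s').le
      have h6 : (∑ t : Lh l m r K K1 S × X,
          if sp t.1 = s ∨ sp t.1 = s' then (1 : ℝ) else 0) ≤
          ∑ t : Lh l m r K K1 S × X, ((if sp t.1 = s then (1 : ℝ) else 0) +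
            if sp t.1 = s' then (1 : ℝ) else 0) := by
        refine Finset.sum_le_sum fun t _ => ?_
        by_cases c1 : sp t.1 = s
        · simp only [c1, true_or, if_true]
          have : (0 : ℝ) ≤ if s = s' then 1 else 0 := by split_ifs <;> norm_num
          linarith
        · simp only [c1, false_or, if_false]
          linarith
      rw [Finset.sum_add_distrib] at h6
      refine h6.trans ?_
      have : 2 / ((K1 : ℝ) + 1) = 1 / ((K1 : ℝ) + 1) + 1 / ((K1 : ℝ) + 1) := by ring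
      rw [this, add_mul]
      linarith
    have h3 := hA3c Y
    rw [pos3 Y hY] at h3
    have h4 : 2 / ((K1 : ℝ) + 1) * ((Y ∩ Gd).card : ℝ) ≤
        (2 * (ε / 8)) * (11 / 10 * Real.log d ^ 8) := by
      refine mul_le_mul ?_ h3 (Nat.cast_nonneg _) (by positivity)
      have : 2 / ((K1 : ℝ) + 1) = 2 * (1 / ((K1 : ℝ) + 1)) := by ring
      rw [this]
      linarith
    have h5 : 0 < ε * Real.log d ^ 8 := by positivity
    have key : (((Y ∩ Gd).filter (fun v =>
        sp (lab v).1 = s ∨ sp (lab v).1 = s')).card : ℝ) ≤ ε * Real.log d ^ 8 := by linarith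
    refine le_trans (le_of_eq ?_) key
    congr 2
    ext y
    simp only [Finset.mem_filter]

end Pool.Agent.Work.MP_db9399_sx.helper76
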